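import Pool.Agent.helper13.RF.SpecU

set_option autoImplicit false

namespace Pool.Agent.RF

open NumberField

/-- `D₀ = g d`, `g ∣ f`, `d` coprime to `f` -/
theorem UMF_gcd (D₀ : ℤ) (f : ℕ) (h : Squarefree D₀) :
    ∃ g d : ℤ, D₀ = g * d ∧ g ∣ (f : ℤ) ∧ IsCoprime d (f : ℤ) := by
  have h0 : D₀ ≠ 0 := h.ne_zero
  have hg : (Int.gcd D₀ (f : ℤ) : ℤ) ≠ 0 := by
    intro hh
    have : Int.gcd D₀ (f : ℤ) = 0 := by exact_mod_cast hh
    exact h0 (Int.gcd_eq_zero_iff.1 this).1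
  obtain ⟨d, hd⟩ := Int.gcd_dvd_left (a := D₀) (b := (f : ℤ))
  obtain ⟨e, he⟩ := Int.gcd_dvd_right (a := D₀) (b := (f : ℤ))
  refine ⟨(Int.gcd D₀ (f : ℤ) : ℤ), d, hd, ⟨e, he⟩, ?_⟩
  have hsq : Squarefree ((Int.gcd D₀ (f : ℤ) : ℤ) * d) := by rw [← hd]; exact h
  have h1 : IsCoprime d (Int.gcd D₀ (f : ℤ) : ℤ) := (isCoprime_comm.1 (squarefree_mul_iff.1 hsq).1.isCoprime)
  have h2 : IsCoprime d e := by
    have hb := Int.gcd_eq_gcd_ab D₀ (f : ℤ)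
    refine ⟨Int.gcdA D₀ f, Int.gcdB D₀ f, ?_⟩
    apply mul_left_cancel₀ hg
    calc (Int.gcd D₀ (f : ℤ) : ℤ) * (Int.gcdA D₀ f * d + Int.gcdB D₀ f * e)
        = ((Int.gcd D₀ (f : ℤ) : ℤ) * d) * Int.gcdA D₀ f + ((Int.gcd D₀ (f : ℤ) : ℤ) * e) * Int.gcdB D₀ f := by ring
      _ = D₀ * Int.gcdA D₀ f + (f : ℤ) * Int.gcdB D₀ f := by rw [← hd, ← he]
      _ = (Int.gcd D₀ (f : ℤ) : ℤ) * 1 := by rw [mul_one]; exact hb.symm
  rw [he]
  exact IsCoprime.mul_right h1 h2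

theorem UMF (h1 : UVR_stmt) (h2 : UUE_stmt) (h3 : VVM_stmt) : UMF_stmt := by
  intro D₀ F _ _ C p f hsq hp hD P hP hP0 hf
  obtain ⟨_, _, _, _, _, _, _, _, _, _, hw0, hf0, _, hu0, _, _, _, _, _⟩ := h2 D₀ F C p f hp hD
  obtain ⟨v1, v2, v3⟩ := h3 F P hP hP0
  have hone : (1 : 𝓞 F) ∉ P := fun h => hP.ne_top ((Ideal.eq_top_iff_one P).2 h)
  have hz : ∀ x : 𝓞 F, x ∉ P → vv P x = 0 := by
    intro x hx
    have hx0 : x ≠ 0 := fun h => hx (by rw [h]; exact P.zero_mem)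
    by_contra hh
    exact hx ((v2 x hx0).1 (Nat.pos_of_ne_zero hh))
  have hG : 1 ≤ vv P (f : 𝓞 F) := (v2 _ hf0).2 hf
  -- 17 ∈ P up to multiples of 20
  have hDP : ((p.D : ℤ) : 𝓞 F) ∈ P := by
    rw [hD]
    push_cast
    rw [pow_two, ← mul_assoc]
    exact P.mul_mem_left _ hf
  have h17 : ∀ z : 𝓞 F, z ∈ P → (20 : 𝓞 F) ∈ P → (17 : 𝓞 F) ∈ P := by
    intro z _ h20
    have e : p.D = 20 * (p.D / 20) + 17 := by have := hp.D20; omega
    have e2 : (17 : 𝓞 F) = ((p.D : ℤ) : 𝓞 F) - ((p.D / 20 : ℤ) : 𝓞 F) * 20 := by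
      have e3 : ((p.D : ℤ) : 𝓞 F) = ((20 * (p.D / 20) + 17 : ℤ) : 𝓞 F) := by rw [← e]
      rw [e3]; push_cast; ring
    rw [e2]
    exact P.sub_mem hDP (P.mul_mem_left _ h20)
  have n2 : (2 : 𝓞 F) ∉ P := by
    intro h
    have h20 : (20 : 𝓞 F) ∈ P := by
      have : (20 : 𝓞 F) = 10 * 2 := by norm_num
      rw [this]; exact P.mul_mem_left _ h
    have := h17 0 P.zero_mem h20
    apply hone
    have e : (1 : 𝓞 F) = 17 - 8 * 2 := by norm_num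
    rw [e]; exact P.sub_mem this (P.mul_mem_left _ h)
  have n5 : (5 : 𝓞 F) ∉ P := by
    intro h
    have h20 : (20 : 𝓞 F) ∈ P := by
      have : (20 : 𝓞 F) = 4 * 5 := by norm_num
      rw [this]; exact P.mul_mem_left _ h
    have := h17 0 P.zero_mem h20
    apply hone
    have e : (1 : 𝓞 F) = 7 * 5 - 2 * 17 := by norm_num
    rw [e]; exact P.sub_mem (P.mul_mem_left _ h) (P.mul_mem_left _ this)
  have n25 : (25 : 𝓞 F) ∉ P := by
    intro h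
    have e : (25 : 𝓞 F) = 5 * 5 := by norm_num
    rw [e] at h
    rcases hP.mem_or_mem h with h | h <;> exact n5 h
  have hk : ∀ k : OO, C.ι k ∉ P → vv P (C.ι (2 * (25 * k))) = 0 := by
    intro k hk
    apply hz
    rw [map_mul, map_mul, map_ofNat, map_ofNat]
    intro h
    rcases hP.mem_or_mem h with h | h
    · exact n2 h
    · rcases hP.mem_or_mem h with h | h
      · exact n25 h
      · exact hk h
  have hcop : C.ι p.k ∉ P ∨ C.ι (star p.k) ∉ P := by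
    by_contra hh
    push Not at hh
    obtain ⟨a, b, hab⟩ := hp.kk
    apply hone
    have : (1 : 𝓞 F) = C.ι a * C.ι p.k + C.ι b * C.ι (star p.k) := by
      rw [← map_mul, ← map_mul, ← map_add, hab, map_one]
    rw [this]
    exact P.add_mem (P.mul_mem_left _ hh.1) (P.mul_mem_left _ hh.2)
  -- the valuation of `w`
  have hD0 : (D₀ : 𝓞 F) ≠ 0 := by
    have := hsq.ne_zero
    exact_mod_cast this
  have hw2 : C.ι w2 ∉ P := by
    intro h
    apply n5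
    have e : (5 : 𝓞 F) = C.ι (star w2) * C.ι w2 := by
      rw [← map_mul]
      have : star w2 * w2 = (5 : OO) := by
        ext <;> rfl
      rw [this, map_ofNat]
    rw [e]; exact P.mul_mem_left _ h
  have hw2z : C.ι w2 ≠ 0 := fun h => hw2 (by rw [h]; exact P.zero_mem)
  have hW1 : vv P C.w + vv P C.w ≤ vv P (D₀ : 𝓞 F) := by
    rw [← v1 _ _ hw0 hw0]
    have hdv : C.w * C.w ∣ C.ι w2 * (D₀ : 𝓞 F) := by
      refine ⟨-1, ?_⟩
      have := C.ww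
      rw [← pow_two, this]; ring
    have := v3 _ _ (mul_ne_zero hw2z hD0) hdv
    rwa [v1 _ _ hw2z hD0, hz _ hw2, zero_add] at this
  have hW2 : vv P (D₀ : 𝓞 F) ≤ vv P (f : 𝓞 F) := by
    obtain ⟨g, d, e1, e2, e3⟩ := UMF_gcd D₀ f hsq
    have hg0 : ((g : ℤ) : 𝓞 F) ≠ 0 := by
      intro h; apply hD0; rw [e1]; push_cast; rw [h, zero_mul]
    have hd0 : ((d : ℤ) : 𝓞 F) ≠ 0 := by
      intro h; apply hD0; rw [e1]; push_cast; rw [h, mul_zero]
    have hdP : ((d : ℤ) : 𝓞 F) ∉ P := by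
      intro h
      obtain ⟨a, b, hab⟩ := e3
      apply hone
      have : (1 : 𝓞 F) = (a : 𝓞 F) * (d : 𝓞 F) + (b : 𝓞 F) * (f : 𝓞 F) := by
        have := congrArg (fun z : ℤ => (z : 𝓞 F)) hab
        push_cast at this
        exact this.symm
      rw [this]
      exact P.add_mem (P.mul_mem_left _ h) (P.mul_mem_left _ hf)
    have : ((D₀ : ℤ) : 𝓞 F) = (g : 𝓞 F) * (d : 𝓞 F) := by rw [e1]; push_cast; rfl
    rw [this, v1 _ _ hg0 hd0, hz _ hdP, add_zero]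
    apply v3 _ _ hf0
    obtain ⟨e, he⟩ := e2
    refine ⟨(e : 𝓞 F), ?_⟩
    have := congrArg (fun z : ℤ => (z : 𝓞 F)) he
    push_cast at this
    exact this
  obtain ⟨q1, q2, q3, q4, q5, q6, q7, q8, _⟩ := h1 D₀ F C p f hp hD P hP hP0 _ _ _ _ _ _ _ _ _ _ rfl rfl rfl rfl rfl rfl rfl rfl rfl rfl
  refine ⟨hG, ?_⟩
  rcases hcop with hc | hc
  · have := hk _ hc
    omega
  · have := hk _ hc
    omega

end Pool.Agent.RF
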